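import Mathlib
import Pool.Agent.Q167.SL.StmD

/-!
# SL2, job FA (helper190 for helper167)
-/

set_option autoImplicit false

open MeasureTheory Filter Topology

namespace Pool.Agent.Q190.SL

open Pool.Agent.Q167.SL

/-- one frequency of the family -/
def FamAt (n : ℕ) (r a θ M D lam : ℝ) : Prop := ∃ u ud : ℝ → ℂ,
  (∀ τ, HasDerivAt u (ud τ) τ) ∧ Continuous ud ∧
  (∀ τ ∈ Set.Icc a 1, ‖u τ - Complex.exp (((lam * τ : ℝ) : ℂ) * Complex.I)‖ ≤ θ ∧
    ‖ud τ - lam * Complex.I * Complex.exp (((lam * τ : ℝ) : ℂ) * Complex.I)‖ ≤ θ) ∧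
  (∀ τ ∈ Set.Icc (-1 : ℝ) 1, ‖u τ‖ ≤ M) ∧ Bd n r D u

lemma FamAt.mono {n : ℕ} {r a θ θ' M D lam : ℝ} (h : FamAt n r a θ M D lam) (hθ : θ ≤ θ') :
    FamAt n r a θ' M D lam := by
  obtain ⟨u, ud, h1, h2, h3, h4, h5⟩ := h
  exact ⟨u, ud, h1, h2, fun τ hτ => ⟨le_trans (h3 τ hτ).1 hθ, le_trans (h3 τ hτ).2 hθ⟩, h4, h5⟩

/-- all frequencies `n ξ`, `ξ ∈ S`, with error exponent `ε₁` -/
def GoodS (a Q : ℝ) (ε₁ : ℝ) (S : Set ℝ) : Prop :=
  ∀ ε₂ r : ℝ, 0 < ε₂ → 0 ≤ r → r < 1 → ∃ n₀ : ℕ, ∀ n : ℕ, n₀ ≤ n → ∀ ξ ∈ S,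
    FamAt n r a (Real.exp (-(ε₁ * n))) (Real.exp (ε₂ * n)) (Real.exp (-(n * Q))) (n * ξ)

lemma exp_mono {x y : ℝ} (h : x ≤ y) (n : ℕ) : Real.exp (-(y * n)) ≤ Real.exp (-(x * n)) := by
  apply Real.exp_le_exp.mpr
  have : (0 : ℝ) ≤ n := Nat.cast_nonneg n
  nlinarith

lemma good_union {a Q : ℝ} {S T : Set ℝ} (hS : ∃ ε₁ : ℝ, 0 < ε₁ ∧ GoodS a Q ε₁ S)
    (hT : ∃ ε₁ : ℝ, 0 < ε₁ ∧ GoodS a Q ε₁ T) : ∃ ε₁ : ℝ, 0 < ε₁ ∧ GoodS a Q ε₁ (S ∪ T) := by
  obtain ⟨e1, h1, g1⟩ := hS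
  obtain ⟨e2, h2, g2⟩ := hT
  refine ⟨min e1 e2, lt_min h1 h2, ?_⟩
  intro ε₂ r hε₂ hr0 hr1
  obtain ⟨n1, k1⟩ := g1 ε₂ r hε₂ hr0 hr1
  obtain ⟨n2, k2⟩ := g2 ε₂ r hε₂ hr0 hr1
  refine ⟨max n1 n2, ?_⟩
  intro n hn ξ hξ
  rcases hξ with hξ | hξ
  · exact (k1 n (le_trans (le_max_left _ _) hn) ξ hξ).mono (exp_mono (min_le_left _ _) n)
  · exact (k2 n (le_trans (le_max_right _ _) hn) ξ hξ).mono (exp_mono (min_le_right _ _) n)

/-- a function with positive derivative takes all values near `f x₀` in a small interval -/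
lemma local_onto (f : ℝ → ℝ) (f' x₀ ρ : ℝ) (hf : Continuous f) (hd : HasDerivAt f f' x₀)
    (hpos : 0 < f') (hρ : 0 < ρ) :
    ∃ S ∈ 𝓝 (f x₀), ∀ y ∈ S, ∃ x : ℝ, |x - x₀| < ρ ∧ f x = y := by
  have h1 := hasDerivAt_iff_tendsto_slope.mp hd
  have h2 := h1.eventually (lt_mem_nhds hpos)
  rw [eventually_nhdsWithin_iff] at h2
  obtain ⟨δ, hδ, h3⟩ := Metric.eventually_nhds_iff.mp h2
  set d : ℝ := min (δ / 2) (ρ / 2) with hdd
  have hd0 : 0 < d := by positivity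
  have hdδ : d < δ := lt_of_le_of_lt (min_le_left _ _) (by linarith)
  have hdρ : d < ρ := lt_of_le_of_lt (min_le_right _ _) (by linarith)
  have hr : f x₀ < f (x₀ + d) := by
    have h4 := h3 (y := x₀ + d) (by
      rw [Real.dist_eq, add_sub_cancel_left, abs_of_pos hd0]
      exact hdδ) (by
        simp only [Set.mem_compl_iff, Set.mem_singleton_iff]
        intro h
        linarith)
    rw [slope_def_field, add_sub_cancel_left] at h4
    have := (div_pos_iff_of_pos_right hd0).mp h4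
    linarith
  have hl : f (x₀ - d) < f x₀ := by
    have h4 := h3 (y := x₀ - d) (by
      rw [Real.dist_eq, sub_sub_cancel_left, abs_neg, abs_of_pos hd0]
      exact hdδ) (by
        simp only [Set.mem_compl_iff, Set.mem_singleton_iff]
        intro h
        linarith)
    rw [slope_def_field, sub_sub_cancel_left] at h4
    rw [div_neg, neg_pos] at h4
    have : f (x₀ - d) - f x₀ < 0 := by
      by_contra h
      push Not at h
      have := div_nonneg h hd0.le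
      linarith
    linarith
  refine ⟨Set.Ioo (f (x₀ - d)) (f (x₀ + d)), Ioo_mem_nhds hl hr, ?_⟩
  intro y hy
  have h5 := intermediate_value_Icc (show x₀ - d ≤ x₀ + d by linarith) hf.continuousOn
  obtain ⟨x, hx, hxy⟩ := h5 ⟨hy.1.le, hy.2.le⟩
  refine ⟨x, ?_, hxy⟩
  rw [abs_lt]
  constructor
  · linarith [hx.1]
  · linarith [hx.2]

theorem fa : S_fa := by
  intro hlin hta hexpk hker hder hfc hanti η a ε hη hta' ha0 ha1 hε
  set Q : ℝ := Ph η - ε with hQ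
  set C₀ : ℝ := Real.exp (2 * |Ph η|) with hC₀
  -- the compact part
  have hcomp : ∃ ε₁ : ℝ, 0 < ε₁ ∧ GoodS a Q ε₁ (Set.Icc (-C₀) C₀) := by
    refine isCompact_Icc.induction_on (p := fun S : Set ℝ => ∃ ε₁ : ℝ, 0 < ε₁ ∧ GoodS a Q ε₁ S)
      ?_ ?_ ?_ ?_
    · exact ⟨1, one_pos, fun ε₂ r _ _ _ => ⟨0, fun n _ ξ hξ => absurd hξ (Set.notMem_empty ξ)⟩⟩
    · intro S T hST hT
      obtain ⟨e, he, g⟩ := hT
      refine ⟨e, he, ?_⟩
      intro ε₂ r hε₂ hr0 hr1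
      obtain ⟨n₀, k⟩ := g ε₂ r hε₂ hr0 hr1
      exact ⟨n₀, fun n hn ξ hξ => k n hn ξ (hST hξ)⟩
    · intro S T hS hT
      exact good_union hS hT
    · intro ξ₀ _
      obtain ⟨η', φ₀, hη', hη'η, hφ₀, him, htt⟩ := hfc η ξ₀ hη
      have hK := hker η' hη'
      have hd := hder η' φ₀ hη' hφ₀
      obtain ⟨ρ, ε₁, hρ, hε₁, key⟩ := hta η' (Ph η') (sg η') (Ps η') (tt η') hK φ₀ a hd
        (lt_of_le_of_lt htt hta') (by linarith) ha1 ε hε
      have hstrip : ∀ φ : ℝ, |((φ : ℂ) * Complex.I).re| < η' := by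
        intro φ
        simp [hη']
      have hcont : Continuous (fun φ : ℝ => (sg η' (φ * Complex.I)).im) := by
        rw [continuous_iff_continuousAt]
        intro φ
        have c1 : ContinuousAt (sg η') ((φ : ℂ) * Complex.I) := (hK.ds _ (hstrip φ)).continuousAt
        have c2 : ContinuousAt (fun φ : ℝ => (φ : ℂ) * Complex.I) φ := by fun_prop
        exact Complex.continuous_im.continuousAt.comp
          (ContinuousAt.comp (f := fun φ : ℝ => (φ : ℂ) * Complex.I) c1 c2)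
      have hdiff : HasDerivAt (fun φ : ℝ => (sg η' (φ * Complex.I)).im)
          (deriv (sg η') (φ₀ * Complex.I)).re φ₀ := by
        have d1 : HasDerivAt (sg η') (deriv (sg η') (φ₀ * Complex.I)) ((φ₀ : ℂ) * Complex.I) :=
          (hK.ds _ (hstrip φ₀)).hasDerivAt
        have d2 : HasDerivAt (fun φ : ℝ => (φ : ℂ) * Complex.I) Complex.I φ₀ := by
          have := (Complex.ofRealCLM.hasDerivAt (x := φ₀)).mul_const Complex.I
          simpa using this
        have d3 : HasDerivAt (fun φ : ℝ => sg η' (φ * Complex.I))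
            (deriv (sg η') (φ₀ * Complex.I) * Complex.I) φ₀ :=
          HasDerivAt.comp (h₂ := sg η') (h := fun φ : ℝ => (φ : ℂ) * Complex.I) φ₀ d1 d2
        have d4 := (Complex.imCLM.hasFDerivAt (x := sg η' (φ₀ * Complex.I))).comp_hasDerivAt φ₀ d3
        refine d4.congr_deriv ?_
        simp
      obtain ⟨S, hS, hSo⟩ := local_onto _ _ φ₀ ρ hcont hdiff hd hρ
      rw [him] at hS
      refine ⟨S, mem_nhdsWithin_of_mem_nhds hS, ε₁, hε₁, ?_⟩
      intro ε₂ r hε₂ hr0 hr1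
      obtain ⟨n₀, k⟩ := key ε₂ r hε₂ hr0 hr1
      refine ⟨max n₀ 1, ?_⟩
      intro n hn ξ hξ
      have hn1 : 0 < n := lt_of_lt_of_le one_pos (le_trans (le_max_right _ _) hn)
      obtain ⟨φ, hφ, hφξ⟩ := hSo ξ hξ
      obtain ⟨u, ud, h1, h2, h3, h4, h5⟩ := k n (le_trans (le_max_left _ _) hn) φ hφ
      rw [hφξ] at h3
      refine ⟨u, ud, h1, h2, ?_, h4, ?_⟩
      · intro τ hτ
        obtain ⟨h6, h7⟩ := h3 τ hτ
        rw [neg_mul] at h6 h7
        refine ⟨h6, ?_⟩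
        exact h7
      · refine (hlin n r hn1 hr0 hr1).2.2.2 u _ _ ?_ h5
        apply Real.exp_le_exp.mpr
        have h8 : Ph η ≤ Ph η' := hanti.antitoneOn hη' hη hη'η
        have : (0 : ℝ) ≤ n := Nat.cast_nonneg n
        rw [hQ]
        nlinarith
  obtain ⟨ε₁, hε₁, hg⟩ := hcomp
  refine ⟨ε₁, hε₁, ?_⟩
  intro ε₂ r hε₂ hr0 hr1
  obtain ⟨n1, k1⟩ := hg ε₂ r hε₂ hr0 hr1
  obtain ⟨n2, k2⟩ := hexpk r ε hr0 hr1 hε
  refine ⟨max (max n1 n2) 1, ?_⟩
  intro n hn lam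
  have hn1 : 0 < n := lt_of_lt_of_le one_pos (le_trans (le_max_right _ _) hn)
  have hnn1 : n1 ≤ n := le_trans (le_trans (le_max_left _ _) (le_max_left _ _)) hn
  have hnn2 : n2 ≤ n := le_trans (le_trans (le_max_right _ _) (le_max_left _ _)) hn
  have hnR : (0 : ℝ) < n := by exact_mod_cast hn1
  by_cases hlam : |lam / n| ≤ C₀
  · have h1 := k1 n hnn1 (lam / n) (abs_le.mp hlam)
    rw [mul_div_cancel₀ _ hnR.ne'] at h1
    exact h1
  · push Not at hlam
    have hC0 : 0 < C₀ := Real.exp_pos _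
    have hξ0 : lam / n ≠ 0 := by
      intro h
      rw [h, abs_zero] at hlam
      linarith
    have hσ : (((lam / n : ℝ) : ℂ) * Complex.I) ≠ 0 :=
      mul_ne_zero (Complex.ofReal_ne_zero.mpr hξ0) Complex.I_ne_zero
    have h1 := k2 n hnn2 (((lam / n : ℝ) : ℂ) * Complex.I) hσ
    have hfun : (fun τ : ℝ => Complex.exp (n * (((lam / n : ℝ) : ℂ) * Complex.I) * τ)) =
        fun τ : ℝ => Complex.exp (((lam * τ : ℝ) : ℂ) * Complex.I) := by
      funext τ
      congr 1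
      have : ((n : ℝ) : ℂ) ≠ 0 := Complex.ofReal_ne_zero.mpr hnR.ne'
      push_cast at this ⊢
      field_simp
    rw [hfun] at h1
    have hre : (((lam / n : ℝ) : ℂ) * Complex.I).re = 0 := by simp
    have hno : ‖((lam / n : ℝ) : ℂ) * Complex.I‖ = |lam / n| := by
      rw [norm_mul, Complex.norm_I, mul_one, Complex.norm_real, Real.norm_eq_abs]
    rw [hre, hno, abs_zero] at h1
    refine ⟨fun τ : ℝ => Complex.exp (((lam * τ : ℝ) : ℂ) * Complex.I),
      fun τ : ℝ => lam * Complex.I * Complex.exp (((lam * τ : ℝ) : ℂ) * Complex.I), ?_, ?_, ?_, ?_, ?_⟩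
    · intro τ
      have d1 : HasDerivAt (fun τ : ℝ => ((lam * τ : ℝ) : ℂ) * Complex.I) (lam * Complex.I) τ := by
        have e1 : HasDerivAt (fun τ : ℝ => lam * τ) lam τ := by
          simpa using (hasDerivAt_id τ).const_mul lam
        exact (e1.ofReal_comp).mul_const Complex.I
      have d2 := d1.cexp
      refine d2.congr_deriv ?_
      ring
    · fun_prop
    · intro τ _
      simp only [sub_self, norm_zero]
      exact ⟨(Real.exp_pos _).le, (Real.exp_pos _).le⟩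
    · intro τ _
      simp only
      rw [Complex.norm_exp_ofReal_mul_I]
      apply Real.one_le_exp
      positivity
    · refine (hlin n r hn1 hr0 hr1).2.2.2 _ _ _ ?_ h1
      apply Real.exp_le_exp.mpr
      have h2 : 2 * |Ph η| ≤ Real.log |lam / n| := by
        rw [Real.le_log_iff_exp_le (by positivity)]
        exact hlam.le
      have h3 := le_abs_self (Ph η)
      rw [hQ]
      nlinarith

end Pool.Agent.Q190.SL
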