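import Mathlib
import Pool.Agent.Q167.SL.StmC

/-!
# SL2, job K3A (helper190 for helper167)
-/

set_option autoImplicit false

open MeasureTheory Filter Topology

namespace Pool.Agent.Q190.SL

open Pool.Agent.Q167.SL

/-- `sinh p / (sinh² p + v)` -/
noncomputable def gg (v p : ℝ) : ℝ := Real.sinh p / (Real.sinh p ^ 2 + v)

lemma sinh_re_im (x φ : ℝ) :
    (Complex.sinh (x + φ * Complex.I)).re = Real.sinh x * Real.cos φ ∧
    (Complex.sinh (x + φ * Complex.I)).im = Real.cosh x * Real.sin φ := by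
  have h : Complex.sinh (x + φ * Complex.I) = ((Real.sinh x * Real.cos φ : ℝ) : ℂ) +
      ((Real.cosh x * Real.sin φ : ℝ) : ℂ) * Complex.I := by
    rw [Complex.sinh_add, Complex.sinh_mul_I, Complex.cosh_mul_I]
    push_cast
    ring
  rw [h]
  constructor
  · rw [Complex.add_re, Complex.ofReal_re, Complex.re_ofReal_mul, Complex.I_re, mul_zero, add_zero]
  · rw [Complex.add_im, Complex.ofReal_im, Complex.im_ofReal_mul, Complex.I_im, mul_one, zero_add]

lemma term_re (u x φ : ℝ) (hx : 0 ≤ x) (hu : x < u) :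
    (Complex.sinh (x + φ * Complex.I) * ((Real.cosh u : ℝ) : ℂ) /
      (((Real.sinh u ^ 2 : ℝ) : ℂ) - Complex.sinh (x + φ * Complex.I) ^ 2)).re =
    1 / 2 * Real.cos φ * (gg (Real.sin φ ^ 2) (u - x) - gg (Real.sin φ ^ 2) (u + x)) := by
  obtain ⟨h1, h2⟩ := sinh_re_im x φ
  set z := Complex.sinh (x + φ * Complex.I) with hz
  set a := Real.sinh x with ha
  set A := Real.cosh x with hA
  set c := Real.cos φ with hc
  set d := Real.sin φ with hd
  set U := Real.sinh u with hU
  set V := Real.cosh u with hV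
  have e1 : A ^ 2 = 1 + a ^ 2 := by rw [hA, ha, Real.cosh_sq]; ring
  have e2 : V ^ 2 = 1 + U ^ 2 := by rw [hV, hU, Real.cosh_sq]; ring
  have e3 : c ^ 2 = 1 - d ^ 2 := by rw [hc, hd, Real.cos_sq']
  have hWre : (((U ^ 2 : ℝ) : ℂ) - z ^ 2).re = U ^ 2 - a ^ 2 * c ^ 2 + A ^ 2 * d ^ 2 := by
    rw [Complex.sub_re, Complex.ofReal_re, pow_two z, Complex.mul_re, h1, h2]
    ring
  have hWim : (((U ^ 2 : ℝ) : ℂ) - z ^ 2).im = -(2 * a * A * c * d) := by
    rw [Complex.sub_im, Complex.ofReal_im, pow_two z, Complex.mul_im, h1, h2]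
    ring
  have hNre : (z * ((V : ℝ) : ℂ)).re = a * c * V := by
    rw [Complex.mul_re, Complex.ofReal_re, Complex.ofReal_im, h1]; ring
  have hNim : (z * ((V : ℝ) : ℂ)).im = A * d * V := by
    rw [Complex.mul_im, Complex.ofReal_re, Complex.ofReal_im, h2]; ring
  have hsub : Real.sinh (u - x) = U * A - V * a := Real.sinh_sub u x
  have hadd : Real.sinh (u + x) = U * A + V * a := Real.sinh_add u x
  have hpos1 : 0 < Real.sinh (u - x) := Real.sinh_pos_iff.mpr (by linarith)
  have hpos2 : 0 < Real.sinh (u + x) := Real.sinh_pos_iff.mpr (by linarith)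
  have hD1 : 0 < (U * A - V * a) ^ 2 + d ^ 2 := by
    rw [← hsub]; positivity
  have hD2 : 0 < (U * A + V * a) ^ 2 + d ^ 2 := by
    rw [← hadd]; positivity
  have hns : Complex.normSq (((U ^ 2 : ℝ) : ℂ) - z ^ 2) =
      ((U * A - V * a) ^ 2 + d ^ 2) * ((U * A + V * a) ^ 2 + d ^ 2) := by
    rw [Complex.normSq_apply, hWre, hWim]
    have : ((U * A - V * a) ^ 2 + d ^ 2) * ((U * A + V * a) ^ 2 + d ^ 2) =
        (U ^ 2 * A ^ 2 - V ^ 2 * a ^ 2) ^ 2 + 2 * d ^ 2 * (U ^ 2 * A ^ 2 + V ^ 2 * a ^ 2) +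
          d ^ 4 := by ring
    rw [this]
    have h3 : (2 * a * A * c * d) * (2 * a * A * c * d) = 4 * a ^ 2 * A ^ 2 * c ^ 2 * d ^ 2 := by
      ring
    rw [neg_mul_neg, h3, e1, e2, e3]
    ring
  rw [Complex.div_re, hns, hWre, hWim, hNre, hNim]
  unfold gg
  rw [hsub, hadd, ← add_div, ]
  have h4 : (U * A - V * a) / ((U * A - V * a) ^ 2 + d ^ 2) -
      (U * A + V * a) / ((U * A + V * a) ^ 2 + d ^ 2) =
      ((U * A - V * a) * ((U * A + V * a) ^ 2 + d ^ 2) -
        (U * A + V * a) * ((U * A - V * a) ^ 2 + d ^ 2)) /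
        (((U * A - V * a) ^ 2 + d ^ 2) * ((U * A + V * a) ^ 2 + d ^ 2)) := by
    field_simp
  rw [h4, ← mul_div_assoc]
  congr 1
  have h5 : 1 / 2 * c * ((U * A - V * a) * ((U * A + V * a) ^ 2 + d ^ 2) -
        (U * A + V * a) * ((U * A - V * a) ^ 2 + d ^ 2)) =
      c * V * a * (U ^ 2 * A ^ 2 - V ^ 2 * a ^ 2 - d ^ 2) := by ring
  have h6 : a * c * V * (U ^ 2 - a ^ 2 * c ^ 2 + A ^ 2 * d ^ 2) + A * d * V * -(2 * a * A * c * d) =
      c * V * a * (U ^ 2 - a ^ 2 * c ^ 2 - A ^ 2 * d ^ 2) := by ring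
  rw [h5, h6, e1, e2, e3]
  ring

/-- the terms of `sg` -/
lemma sg_eq (η x φ : ℝ) :
    sg η (x + φ * Complex.I) = ∑' l : ℕ, Complex.sinh (x + φ * Complex.I) *
      ((Real.cosh ((2 * l + 1) * η) : ℝ) : ℂ) /
      (((Real.sinh ((2 * l + 1) * η) ^ 2 : ℝ) : ℂ) - Complex.sinh (x + φ * Complex.I) ^ 2) := by
  unfold sg Hf Cl Sl
  rw [← tsum_mul_left]
  apply tsum_congr
  intro l
  rw [mul_div_assoc]

lemma u_gt (η x : ℝ) (hη : 0 < η) (hx : x < η) (l : ℕ) : x < (2 * (l : ℝ) + 1) * η := by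
  have : (0 : ℝ) ≤ l := Nat.cast_nonneg l
  nlinarith

lemma sg_re_cases (η x φ : ℝ) (hη : 0 < η) (hx0 : 0 ≤ x) (hx : x < η) :
    (sg η (x + φ * Complex.I)).re = 0 ∨
    HasSum (fun l : ℕ => 1 / 2 * Real.cos φ * (gg (Real.sin φ ^ 2) ((2 * l + 1) * η - x) -
      gg (Real.sin φ ^ 2) ((2 * l + 1) * η + x))) (sg η (x + φ * Complex.I)).re := by
  by_cases hs : Summable (fun l : ℕ => Complex.sinh (x + φ * Complex.I) *
      ((Real.cosh ((2 * l + 1) * η) : ℝ) : ℂ) /
      (((Real.sinh ((2 * l + 1) * η) ^ 2 : ℝ) : ℂ) - Complex.sinh (x + φ * Complex.I) ^ 2))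
  · right
    have h1 := hs.hasSum
    rw [← sg_eq] at h1
    have h2 := Complex.hasSum_re h1
    refine h2.congr_fun ?_
    intro l
    exact (term_re _ _ _ hx0 (u_gt η x hη hx l)).symm
  · left
    rw [sg_eq, tsum_eq_zero_of_not_summable hs]
    simp

lemma sg_re_zero_of_cos (η x φ : ℝ) (hη : 0 < η) (hx0 : 0 ≤ x) (hx : x < η)
    (hc : Real.cos φ = 0) : (sg η (x + φ * Complex.I)).re = 0 := by
  rcases sg_re_cases η x φ hη hx0 hx with h | h
  · exact h
  · simp only [hc, mul_zero, zero_mul] at h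
    exact h.unique hasSum_zero

lemma gg_nonneg (v p : ℝ) (hv : 0 ≤ v) (hp : 0 ≤ p) : 0 ≤ gg v p := by
  unfold gg
  have : 0 ≤ Real.sinh p := Real.sinh_nonneg_iff.mpr hp
  positivity

lemma gg_le (v p : ℝ) (hv : 0 ≤ v) (hp : 0 < p) : gg v p ≤ 1 / p := by
  unfold gg
  have h1 : 0 < Real.sinh p := Real.sinh_pos_iff.mpr hp
  have h2 : p ≤ Real.sinh p := Real.self_le_sinh_iff.mpr hp.le
  rw [div_le_div_iff₀ (by positivity) hp]
  nlinarith

lemma gg_diff (v a b : ℝ) (hv : 0 ≤ v) (hb : 0 < b) (hab : b ≤ a) :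
    -(1 / Real.sinh b - 1 / Real.sinh a) ≤ gg v a - gg v b := by
  unfold gg
  have hB : 0 < Real.sinh b := Real.sinh_pos_iff.mpr hb
  have hAB : Real.sinh b ≤ Real.sinh a := Real.sinh_le_sinh.mpr hab
  have hA : 0 < Real.sinh a := lt_of_lt_of_le hB hAB
  set A := Real.sinh a
  set B := Real.sinh b
  have e1 : A / (A ^ 2 + v) - B / (B ^ 2 + v) =
      (A - B) * (v - A * B) / ((A ^ 2 + v) * (B ^ 2 + v)) := by
    have hA2 : A ^ 2 + v ≠ 0 := by positivity
    have hB2 : B ^ 2 + v ≠ 0 := by positivity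
    rw [div_sub_div _ _ hA2 hB2]
    congr 1
    ring
  have e2 : -(1 / B - 1 / A) = (A - B) * (-1) / (A * B) := by
    rw [div_sub_div _ _ hB.ne' hA.ne', ← neg_div, mul_comm B A]
    congr 1
    ring
  rw [e1, e2, div_le_div_iff₀ (by positivity) (by positivity)]
  have h0 : 0 ≤ A - B := by linarith
  have h1 : -1 * ((A ^ 2 + v) * (B ^ 2 + v)) ≤ (v - A * B) * (A * B) := by
    have h2 : 0 ≤ v * (A * B) := by positivity
    have h3 : 0 ≤ v * B ^ 2 := by positivity
    have h4 : 0 ≤ v * A ^ 2 := by positivity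
    nlinarith [sq_nonneg v]
  nlinarith [mul_le_mul_of_nonneg_left h1 h0]

lemma telescope (η δ v : ℝ) (N : ℕ) :
    ∑ l ∈ Finset.range (N + 1), (gg v (2 * l * η + δ) - gg v ((2 * l + 2) * η - δ)) =
      gg v δ + ∑ l ∈ Finset.range N, (gg v ((2 * l + 2) * η + δ) - gg v ((2 * l + 2) * η - δ)) -
        gg v ((2 * N + 2) * η - δ) := by
  induction N with
  | zero => simp
  | succ N ih =>
    rw [Finset.sum_range_succ, ih, Finset.sum_range_succ _ N]
    push_cast
    have : 2 * ((N : ℝ) + 1) * η + δ = (2 * N + 2) * η + δ := by ring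
    rw [this]
    ring

lemma sinh_lower (η x : ℝ) (hx : η ≤ x) :
    Real.exp x * (1 - Real.exp (-2 * η)) / 2 ≤ Real.sinh x := by
  rw [Real.sinh_eq]
  have h1 : Real.exp (-x) ≤ Real.exp x * Real.exp (-2 * η) := by
    rw [← Real.exp_add]
    apply Real.exp_le_exp.mpr
    linarith
  linarith

lemma kappa_bound (η δ : ℝ) (hη : 0 < η) (hδ : 0 < δ) (hδη : δ < η) (l : ℕ) :
    1 / Real.sinh ((2 * l + 2) * η - δ) - 1 / Real.sinh ((2 * l + 2) * η + δ) ≤
      (4 * Real.sinh δ * (Real.cosh η / Real.sinh η) / (1 - Real.exp (-2 * η))) *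
        Real.exp (-2 * η) ^ l := by
  set p : ℝ := (2 * l + 2) * η with hp
  have hl : (0 : ℝ) ≤ l := Nat.cast_nonneg l
  have hp1 : η ≤ p := by rw [hp]; nlinarith
  have hq1 : (2 * (l : ℝ) + 1) * η ≤ p - δ := by rw [hp]; nlinarith
  have hq2 : η ≤ (2 * (l : ℝ) + 1) * η := by nlinarith
  have hsη : 0 < Real.sinh η := Real.sinh_pos_iff.mpr hη
  have hb : 0 < Real.sinh (p - δ) := Real.sinh_pos_iff.mpr (by linarith)
  have hpp : 0 < Real.sinh p := Real.sinh_pos_iff.mpr (by linarith)
  have ha : Real.sinh p ≤ Real.sinh (p + δ) := Real.sinh_le_sinh.mpr (by linarith)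
  have ha0 : 0 < Real.sinh (p + δ) := lt_of_lt_of_le hpp ha
  have hq0 : 0 < 1 - Real.exp (-2 * η) := by
    have : Real.exp (-2 * η) < 1 := by
      rw [Real.exp_lt_one_iff]
      linarith
    linarith
  have hsd : 0 < Real.sinh δ := Real.sinh_pos_iff.mpr hδ
  have hcosh : Real.cosh p ≤ Real.sinh p * (Real.cosh η / Real.sinh η) := by
    rw [← mul_div_assoc, le_div_iff₀ hsη]
    have : 0 ≤ Real.sinh (p - η) := Real.sinh_nonneg_iff.mpr (by linarith)
    rw [Real.sinh_sub] at this
    linarith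
  have hdiff : 1 / Real.sinh (p - δ) - 1 / Real.sinh (p + δ) =
      2 * Real.sinh δ * (Real.cosh p / Real.sinh (p + δ)) * (1 / Real.sinh (p - δ)) := by
    have : Real.sinh (p + δ) - Real.sinh (p - δ) = 2 * Real.cosh p * Real.sinh δ := by
      rw [Real.sinh_add, Real.sinh_sub]; ring
    field_simp
    linarith
  have h1 : Real.cosh p / Real.sinh (p + δ) ≤ Real.cosh η / Real.sinh η := by
    rw [div_le_iff₀ ha0]
    have h2 : 0 ≤ Real.cosh η / Real.sinh η := by positivity
    nlinarith [mul_le_mul_of_nonneg_left ha h2]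
  have h3 : 1 / Real.sinh (p - δ) ≤ 2 / (1 - Real.exp (-2 * η)) * Real.exp (-2 * η) ^ l := by
    have h4 := sinh_lower η (p - δ) (by linarith)
    have h5 : Real.exp (2 * l * η) ≤ Real.exp (p - δ) := by
      apply Real.exp_le_exp.mpr
      nlinarith
    have h6 : Real.exp (-2 * η) ^ l = Real.exp (-(2 * l * η)) := by
      rw [← Real.exp_nat_mul]
      congr 1
      ring
    rw [h6, Real.exp_neg, div_le_iff₀ hb]
    have h7 : Real.exp (2 * l * η) * (1 - Real.exp (-2 * η)) / 2 ≤ Real.sinh (p - δ) := by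
      refine le_trans ?_ h4
      apply div_le_div_of_nonneg_right _ (by norm_num)
      exact mul_le_mul_of_nonneg_right h5 hq0.le
    have h8 : 0 < Real.exp (2 * l * η) := Real.exp_pos _
    calc (1 : ℝ) = 2 / (1 - Real.exp (-2 * η)) * (Real.exp (2 * l * η))⁻¹ *
          (Real.exp (2 * l * η) * (1 - Real.exp (-2 * η)) / 2) := by
          generalize hQ : 1 - Real.exp (-2 * η) = Q at hq0 ⊢
          generalize hE : Real.exp (2 * l * η) = E at h8 ⊢
          field_simp
      _ ≤ _ := mul_le_mul_of_nonneg_left h7 (by positivity)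
  rw [hdiff]
  calc 2 * Real.sinh δ * (Real.cosh p / Real.sinh (p + δ)) * (1 / Real.sinh (p - δ)) ≤
        2 * Real.sinh δ * (Real.cosh η / Real.sinh η) *
          (2 / (1 - Real.exp (-2 * η)) * Real.exp (-2 * η) ^ l) := by
        apply mul_le_mul _ h3 (by positivity) (by positivity)
        exact mul_le_mul_of_nonneg_left h1 (by positivity)
    _ = _ := by ring

/-- the estimate on the edge -/
lemma edge (η δ φ : ℝ) (hη : 0 < η) (hδ : 0 < δ) (hδη : δ < η) (hφ : |φ| ≤ Real.pi / 2) :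
    -((2 * (Real.cosh η / Real.sinh η) / (1 - Real.exp (-2 * η)) ^ 2) * Real.sinh δ) ≤
      (sg η ((η - δ : ℝ) + φ * Complex.I)).re := by
  have hq1 : Real.exp (-2 * η) < 1 := by
    rw [Real.exp_lt_one_iff]
    linarith
  have hq0 : 0 < 1 - Real.exp (-2 * η) := by linarith
  have hsη : 0 < Real.sinh η := Real.sinh_pos_iff.mpr hη
  have hsd : 0 < Real.sinh δ := Real.sinh_pos_iff.mpr hδ
  rcases sg_re_cases η (η - δ) φ hη (by linarith) (by linarith) with h | h
  · rw [h]
    have : 0 ≤ (2 * (Real.cosh η / Real.sinh η) / (1 - Real.exp (-2 * η)) ^ 2) * Real.sinh δ := by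
      positivity
    linarith
  · have hc0 : 0 ≤ Real.cos φ := by
      apply Real.cos_nonneg_of_mem_Icc
      exact ⟨(abs_le.mp hφ).1 |> fun h => by linarith, (abs_le.mp hφ).2⟩
    have hc1 : Real.cos φ ≤ 1 := Real.cos_le_one φ
    set v : ℝ := Real.sin φ ^ 2 with hv
    have hv0 : 0 ≤ v := sq_nonneg _
    have ht := (h.tendsto_sum_nat).comp (tendsto_add_atTop_nat 1)
    -- the lower bound of the partial sums
    have hlow : ∀ N : ℕ, -((2 * (Real.cosh η / Real.sinh η) / (1 - Real.exp (-2 * η)) ^ 2) *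
        Real.sinh δ) - 1 / 2 * (1 / ((2 * (N : ℝ) + 1) * η)) ≤
        ∑ l ∈ Finset.range (N + 1), 1 / 2 * Real.cos φ *
          (gg v ((2 * l + 1) * η - (η - δ)) - gg v ((2 * l + 1) * η + (η - δ))) := by
      intro N
      have e1 : ∑ l ∈ Finset.range (N + 1), 1 / 2 * Real.cos φ *
          (gg v ((2 * l + 1) * η - (η - δ)) - gg v ((2 * l + 1) * η + (η - δ))) =
          1 / 2 * Real.cos φ * ∑ l ∈ Finset.range (N + 1),
            (gg v (2 * l * η + δ) - gg v ((2 * l + 2) * η - δ)) := by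
        rw [Finset.mul_sum]
        apply Finset.sum_congr rfl
        intro l _
        have a1 : (2 * (l : ℝ) + 1) * η - (η - δ) = 2 * l * η + δ := by ring
        have a2 : (2 * (l : ℝ) + 1) * η + (η - δ) = (2 * l + 2) * η - δ := by ring
        rw [a1, a2]
      rw [e1, telescope]
      have hsum : -(∑ l ∈ Finset.range N,
          (4 * Real.sinh δ * (Real.cosh η / Real.sinh η) / (1 - Real.exp (-2 * η))) *
            Real.exp (-2 * η) ^ l) ≤
          ∑ l ∈ Finset.range N, (gg v ((2 * l + 2) * η + δ) - gg v ((2 * l + 2) * η - δ)) := by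
        rw [← Finset.sum_neg_distrib]
        apply Finset.sum_le_sum
        intro l _
        have hl : (0 : ℝ) ≤ l := Nat.cast_nonneg l
        have b1 := gg_diff v ((2 * l + 2) * η + δ) ((2 * l + 2) * η - δ) hv0 (by nlinarith)
          (by linarith)
        have b2 := kappa_bound η δ hη hδ hδη l
        linarith
      have hgeo : ∑ l ∈ Finset.range N, Real.exp (-2 * η) ^ l ≤ 1 / (1 - Real.exp (-2 * η)) := by
        have := Summable.sum_le_tsum (Finset.range N)
          (fun l _ => pow_nonneg (Real.exp_pos (-2 * η)).le l)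
          (summable_geometric_of_lt_one (Real.exp_pos _).le hq1)
        rw [tsum_geometric_of_lt_one (Real.exp_pos _).le hq1] at this
        rw [one_div]
        exact this
      have hsum2 : -((4 * Real.sinh δ * (Real.cosh η / Real.sinh η) / (1 - Real.exp (-2 * η))) *
          (1 / (1 - Real.exp (-2 * η)))) ≤
          ∑ l ∈ Finset.range N, (gg v ((2 * l + 2) * η + δ) - gg v ((2 * l + 2) * η - δ)) := by
        refine le_trans ?_ hsum
        rw [← Finset.mul_sum]
        apply neg_le_neg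
        exact mul_le_mul_of_nonneg_left hgeo (by positivity)
      have hN : (0 : ℝ) ≤ N := Nat.cast_nonneg N
      have hlast : gg v ((2 * N + 2) * η - δ) ≤ 1 / ((2 * (N : ℝ) + 1) * η) := by
        refine le_trans (gg_le v _ hv0 (by nlinarith)) ?_
        apply one_div_le_one_div_of_le (by positivity)
        nlinarith
      have hfirst := gg_nonneg v δ hv0 hδ.le
      have hX : -((4 * Real.sinh δ * (Real.cosh η / Real.sinh η) / (1 - Real.exp (-2 * η))) *
          (1 / (1 - Real.exp (-2 * η)))) - 1 / ((2 * (N : ℝ) + 1) * η) ≤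
          gg v δ + ∑ l ∈ Finset.range N,
            (gg v ((2 * l + 2) * η + δ) - gg v ((2 * l + 2) * η - δ)) -
            gg v ((2 * N + 2) * η - δ) := by linarith
      have hXneg : -((4 * Real.sinh δ * (Real.cosh η / Real.sinh η) / (1 - Real.exp (-2 * η))) *
          (1 / (1 - Real.exp (-2 * η)))) - 1 / ((2 * (N : ℝ) + 1) * η) ≤ 0 := by
        have c1 : 0 ≤ (4 * Real.sinh δ * (Real.cosh η / Real.sinh η) / (1 - Real.exp (-2 * η))) *
          (1 / (1 - Real.exp (-2 * η))) := by positivity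
        have c2 : 0 ≤ 1 / ((2 * (N : ℝ) + 1) * η) := by positivity
        linarith
      have hY := mul_le_mul_of_nonneg_left hX (show 0 ≤ 1 / 2 * Real.cos φ by positivity)
      refine le_trans ?_ hY
      have hZ : -((2 * (Real.cosh η / Real.sinh η) / (1 - Real.exp (-2 * η)) ^ 2) *
        Real.sinh δ) - 1 / 2 * (1 / ((2 * (N : ℝ) + 1) * η)) =
        1 / 2 * (-((4 * Real.sinh δ * (Real.cosh η / Real.sinh η) / (1 - Real.exp (-2 * η))) *
          (1 / (1 - Real.exp (-2 * η)))) - 1 / ((2 * (N : ℝ) + 1) * η)) := by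
        field_simp
        ring
      rw [hZ]
      nlinarith
    have hlim : Tendsto (fun N : ℕ => -((2 * (Real.cosh η / Real.sinh η) /
        (1 - Real.exp (-2 * η)) ^ 2) * Real.sinh δ) - 1 / 2 * (1 / ((2 * (N : ℝ) + 1) * η))) atTop
        (𝓝 (-((2 * (Real.cosh η / Real.sinh η) /
        (1 - Real.exp (-2 * η)) ^ 2) * Real.sinh δ) - 1 / 2 * 0)) := by
      apply Tendsto.sub tendsto_const_nhds
      apply Tendsto.const_mul
      have d1 : Tendsto (fun N : ℕ => (2 * (N : ℝ) + 1) * η) atTop atTop := by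
        apply Tendsto.atTop_mul_const hη
        apply tendsto_atTop_add_const_right
        exact Tendsto.const_mul_atTop (by norm_num) tendsto_natCast_atTop_atTop
      have d2 := d1.inv_tendsto_atTop
      refine d2.congr (fun N => ?_)
      simp only [Pi.inv_apply, one_div]
    simp only [mul_zero, sub_zero] at hlim
    have hfin := le_of_tendsto_of_tendsto' hlim ht hlow
    exact hfin

theorem k3a : S_k3a := by
  intro hk1 η x φ hη hx0 hx hφ
  obtain ⟨hdiff, -, -, -, hax, -, -⟩ := hk1 η hη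
  have hq1 : Real.exp (-2 * η) < 1 := by
    rw [Real.exp_lt_one_iff]
    linarith
  set K : ℝ := 2 * (Real.cosh η / Real.sinh η) / (1 - Real.exp (-2 * η)) ^ 2 with hK
  have hsη : 0 < Real.sinh η := Real.sinh_pos_iff.mpr hη
  have hK0 : 0 ≤ K := by rw [hK]; positivity
  have hpi := Real.pi_pos
  have main : ∀ δ : ℝ, 0 < δ → δ < η → x ≤ η - δ → -(K * Real.sinh δ) ≤
      (sg η (x + φ * Complex.I)).re := by
    intro δ hδ hδη hxδ
    have hsd : 0 < Real.sinh δ := Real.sinh_pos_iff.mpr hδ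
    set U : Set ℂ := (Set.Ioo 0 (η - δ)) ×ℂ (Set.Ioo (-(Real.pi / 2)) (Real.pi / 2)) with hU
    have hne1 : (0 : ℝ) ≠ η - δ := by linarith
    have hne2 : -(Real.pi / 2) ≠ Real.pi / 2 := by linarith
    have hcl : closure U = (Set.Icc 0 (η - δ)) ×ℂ (Set.Icc (-(Real.pi / 2)) (Real.pi / 2)) := by
      rw [hU, Complex.closure_reProdIm, closure_Ioo hne1, closure_Ioo hne2]
    have hbdd : Bornology.IsBounded U := by
      rw [hU]
      exact (Metric.isBounded_Ioo _ _).reProdIm (Metric.isBounded_Ioo _ _)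
    have hf : DiffContOnCl ℂ (fun z => Complex.exp (-sg η z)) U := by
      apply DifferentiableOn.diffContOnCl
      intro z hz
      rw [hcl, Complex.mem_reProdIm] at hz
      have : |z.re| < η := by
        rw [abs_of_nonneg hz.1.1]
        linarith [hz.1.2]
      exact ((hdiff z this).1.neg.cexp).differentiableWithinAt
    have hform : ∀ z : ℂ, z = (z.re : ℂ) + (z.im : ℂ) * Complex.I := fun z => (Complex.re_add_im z).symm
    have hfr : ∀ z ∈ frontier U, ‖Complex.exp (-sg η z)‖ ≤ Real.exp (K * Real.sinh δ) := by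
      intro z hz
      rw [Complex.norm_exp, Complex.neg_re]
      apply Real.exp_le_exp.mpr
      have hKs : 0 ≤ K * Real.sinh δ := by positivity
      rw [hU, Complex.frontier_reProdIm, closure_Ioo hne1, closure_Ioo hne2,
        frontier_Ioo (by linarith), frontier_Ioo (by linarith)] at hz
      rcases hz with hz | hz
      · rw [Complex.mem_reProdIm] at hz
        obtain ⟨h1, h2⟩ := hz
        have hcos : Real.cos z.im = 0 := by
          rcases h2 with h2 | h2
          · rw [h2, Real.cos_neg, Real.cos_pi_div_two]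
          · rw [Set.mem_singleton_iff] at h2
            rw [h2, Real.cos_pi_div_two]
        have h3 := sg_re_zero_of_cos η z.re z.im hη h1.1 (by linarith [h1.2]) hcos
        rw [← hform z] at h3
        rw [h3]
        linarith
      · rw [Complex.mem_reProdIm] at hz
        obtain ⟨h1, h2⟩ := hz
        rcases h1 with h1 | h1
        · have h3 := (hax z.im).1
          have h4 : z = (z.im : ℂ) * Complex.I := by
            conv_lhs => rw [hform z, h1]
            simp
          rw [← h4] at h3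
          rw [h3]
          linarith
        · rw [Set.mem_singleton_iff] at h1
          have h3 := edge η δ z.im hη hδ hδη (abs_le.mpr h2)
          rw [← h1, ← hform z] at h3
          linarith
    have hz : (x : ℂ) + (φ : ℂ) * Complex.I ∈ closure U := by
      rw [hcl, Complex.mem_reProdIm]
      simp only [Complex.add_re, Complex.ofReal_re, Complex.mul_re, Complex.I_re, mul_zero,
        Complex.ofReal_im, Complex.I_im, mul_one, sub_self, add_zero, Complex.add_im,
        Complex.mul_im, zero_add]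
      exact ⟨⟨hx0, hxδ⟩, abs_le.mp hφ⟩
    have h5 := Complex.norm_le_of_forall_mem_frontier_norm_le hbdd hf hfr hz
    rw [Complex.norm_exp, Complex.neg_re] at h5
    have := Real.exp_le_exp.mp h5
    linarith
  -- let δ tend to zero
  have ht : Tendsto (fun δ : ℝ => -(K * Real.sinh δ)) (𝓝[>] 0) (𝓝 (-(K * Real.sinh 0))) := by
    apply Tendsto.mono_left _ nhdsWithin_le_nhds
    exact ((continuous_const.mul Real.continuous_sinh).neg).tendsto 0
  simp only [Real.sinh_zero, mul_zero, neg_zero] at ht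
  apply le_of_tendsto ht
  have h6 : ∀ᶠ δ : ℝ in 𝓝[>] 0, δ ∈ Set.Ioo 0 (η - x) :=
    Ioo_mem_nhdsGT (by linarith)
  filter_upwards [h6] with δ hδ
  exact main δ hδ.1 (by linarith [hδ.2]) (by linarith [hδ.2])

end Pool.Agent.Q190.SL
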