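import Mathlib
import Pool.Agent.Q167.SL.StmB

/-!
# SL2, job B-SEG (helper190 for helper167)
-/

set_option autoImplicit false

open MeasureTheory Filter Topology

namespace Pool.Agent.Q190.SL

open Pool.Agent.Q167.SL
open Pool.Agent.TH41.BL (vS Kf)

/-! ### The kernel `Kf` -/

lemma norm_Kf_eq (n : ℕ) (ε κ c y : ℝ) :
    ‖Kf n ε κ ((c : ℂ) + (y : ℂ) * Complex.I)‖ =
      Real.exp (n * (ε * c ^ 2 - κ * c)) * Real.exp (-(n * ε) * y ^ 2) /
        ‖(c : ℂ) + (y : ℂ) * Complex.I‖ := by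
  unfold Kf
  rw [norm_div, Complex.norm_exp, ← Real.exp_add]
  congr 2
  simp [pow_two]
  ring

lemma norm_ge_re (c y : ℝ) (hc : 0 < c) : c ≤ ‖(c : ℂ) + (y : ℂ) * Complex.I‖ := by
  have h := Complex.abs_re_le_norm ((c : ℂ) + (y : ℂ) * Complex.I)
  simp at h
  rwa [abs_of_pos hc] at h

lemma norm_ge_im (c y : ℝ) : |y| ≤ ‖(c : ℂ) + (y : ℂ) * Complex.I‖ := by
  have h := Complex.abs_im_le_norm ((c : ℂ) + (y : ℂ) * Complex.I)
  simpa using h

/-! ### Functions with bounded real part in a strip -/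

lemma re_le_strip (η M : ℝ) (f : ℂ → ℂ) (hη : 0 < η)
    (hd : ∀ s : ℂ, |s.re| < η → DifferentiableAt ℂ f s)
    (hM : ∀ s : ℂ, |s.re| ≤ η / 2 → |(f s).re| ≤ M) (h0 : ∀ y : ℝ, (f (y * Complex.I)).re = 0) :
    ∀ s : ℂ, |s.re| ≤ η / 4 → |(f s).re| ≤ (Real.exp (2 * M) * (4 / η)) * |s.re| := by
  have hder : ∀ s : ℂ, |s.re| ≤ η / 4 → ‖deriv f s‖ ≤ Real.exp (2 * M) * (4 / η) := by
    intro s hs
    have hball : ∀ z ∈ Metric.closedBall s (η / 4), |z.re| ≤ η / 2 := by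
      intro z hz
      have h1 : |(z - s).re| ≤ η / 4 := by
        have := Complex.abs_re_le_norm (z - s)
        rw [Metric.mem_closedBall, dist_eq_norm] at hz
        linarith
      have h2 : z.re = (z - s).re + s.re := by simp
      rw [h2]
      have := abs_add_le (z - s).re s.re
      linarith
    have hdc : DiffContOnCl ℂ (fun z => Complex.exp (f z)) (Metric.ball s (η / 4)) := by
      apply DifferentiableOn.diffContOnCl
      intro z hz
      have hz' : z ∈ Metric.closedBall s (η / 4) := Metric.closure_ball_subset_closedBall hz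
      have := hball z hz'
      exact ((hd z (by linarith)).cexp).differentiableWithinAt
    have hb := Complex.norm_deriv_le_of_forall_mem_sphere_norm_le (c := s) (R := η / 4)
      (C := Real.exp M) (f := fun z => Complex.exp (f z)) (by positivity) hdc (by
        intro z hz
        have h1 := hM z (hball z (Metric.sphere_subset_closedBall hz))
        rw [Complex.norm_exp]
        exact Real.exp_le_exp.mpr (le_trans (le_abs_self _) h1))
    have h3 : deriv (fun z => Complex.exp (f z)) s = Complex.exp (f s) * deriv f s :=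
      ((hd s (by linarith)).hasDerivAt.cexp).deriv
    rw [h3, norm_mul, Complex.norm_exp] at hb
    have h4 : Real.exp (-M) ≤ Real.exp (f s).re := by
      apply Real.exp_le_exp.mpr
      have := hM s (by linarith)
      have := neg_abs_le (f s).re
      linarith
    have h5 : Real.exp (-M) * ‖deriv f s‖ ≤ Real.exp M / (η / 4) :=
      le_trans (mul_le_mul_of_nonneg_right h4 (norm_nonneg _)) hb
    have h6 : ‖deriv f s‖ = Real.exp M * (Real.exp (-M) * ‖deriv f s‖) := by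
      rw [← mul_assoc, ← Real.exp_add]
      simp
    rw [h6]
    calc Real.exp M * (Real.exp (-M) * ‖deriv f s‖) ≤ Real.exp M * (Real.exp M / (η / 4)) :=
          mul_le_mul_of_nonneg_left h5 (Real.exp_pos _).le
      _ = Real.exp (2 * M) * (4 / η) := by
          rw [two_mul, Real.exp_add]
          field_simp
  intro s hs
  have hconv : Convex ℝ {z : ℂ | |z.re| ≤ η / 4} := by
    have : {z : ℂ | |z.re| ≤ η / 4} = {z : ℂ | -(η / 4) ≤ z.re} ∩ {z : ℂ | z.re ≤ η / 4} := by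
      ext z
      simp [abs_le]
    rw [this]
    exact (convex_halfSpace_re_ge _).inter (convex_halfSpace_re_le _)
  have h1 := Convex.norm_image_sub_le_of_norm_deriv_le (𝕜 := ℂ) (f := f)
    (s := {z : ℂ | |z.re| ≤ η / 4}) (C := Real.exp (2 * M) * (4 / η))
    (x := (s.im : ℂ) * Complex.I) (y := s)
    (fun z hz => hd z (by
      have : |z.re| ≤ η / 4 := hz
      linarith)) (fun z hz => hder z hz) hconv
    (by simp; positivity) hs
  have h2 : ‖s - (s.im : ℂ) * Complex.I‖ = |s.re| := by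
    have : s - (s.im : ℂ) * Complex.I = ((s.re : ℝ) : ℂ) := by
      apply Complex.ext <;> simp
    rw [this, Complex.norm_real, Real.norm_eq_abs]
  rw [h2] at h1
  have h3 : |(f s).re| ≤ ‖f s - f ((s.im : ℂ) * Complex.I)‖ := by
    have := Complex.abs_re_le_norm (f s - f ((s.im : ℂ) * Complex.I))
    rw [Complex.sub_re, h0, sub_zero] at this
    exact this
  linarith

/-! ### Differentiation under the integral -/

lemma deriv_param (a h : ℝ → ℂ) (B : ℝ) (ha : Continuous a) (hB : ∀ v, ‖a v‖ ≤ B)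
    (hh : Integrable h) (j : ℕ) (τ : ℝ) :
    Integrable (fun v => a v ^ j * (Complex.exp (a v * τ) * h v)) ∧
    HasDerivAt (fun x : ℝ => ∫ v, a v ^ j * (Complex.exp (a v * x) * h v))
      (∫ v, a v ^ (j + 1) * (Complex.exp (a v * τ) * h v)) τ := by
  have hB0 : 0 ≤ B := le_trans (norm_nonneg _) (hB 0)
  have hexp : ∀ (v x : ℝ), ‖Complex.exp (a v * x)‖ ≤ Real.exp (B * |x|) := by
    intro v x
    rw [Complex.norm_exp]
    apply Real.exp_le_exp.mpr
    calc (a v * (x : ℂ)).re ≤ ‖a v * (x : ℂ)‖ := Complex.re_le_norm _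
      _ = ‖a v‖ * |x| := by rw [norm_mul, Complex.norm_real, Real.norm_eq_abs]
      _ ≤ B * |x| := mul_le_mul_of_nonneg_right (hB v) (abs_nonneg _)
  have hmeas : ∀ (k : ℕ) (x : ℝ), AEStronglyMeasurable
      (fun v => a v ^ k * (Complex.exp (a v * x) * h v)) volume := by
    intro k x
    apply AEStronglyMeasurable.mul
    · exact (ha.pow k).aestronglyMeasurable
    · apply AEStronglyMeasurable.mul
      · exact (Complex.continuous_exp.comp (ha.mul continuous_const)).aestronglyMeasurable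
      · exact hh.1
  have hbound : ∀ (k : ℕ) (x : ℝ) (v : ℝ), ‖a v ^ k * (Complex.exp (a v * x) * h v)‖ ≤
      B ^ k * Real.exp (B * |x|) * ‖h v‖ := by
    intro k x v
    rw [norm_mul, norm_mul, norm_pow]
    have h1 : ‖a v‖ ^ k ≤ B ^ k := pow_le_pow_left₀ (norm_nonneg _) (hB v) k
    have h2 := hexp v x
    have h3 : ‖Complex.exp (a v * x)‖ * ‖h v‖ ≤ Real.exp (B * |x|) * ‖h v‖ :=
      mul_le_mul_of_nonneg_right h2 (norm_nonneg _)
    calc ‖a v‖ ^ k * (‖Complex.exp (a v * x)‖ * ‖h v‖) ≤ B ^ k * (Real.exp (B * |x|) * ‖h v‖) :=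
          mul_le_mul h1 h3 (by positivity) (by positivity)
      _ = _ := by ring
  have hint : ∀ (k : ℕ) (x : ℝ), Integrable (fun v => a v ^ k * (Complex.exp (a v * x) * h v)) := by
    intro k x
    exact Integrable.mono' (hh.norm.const_mul (B ^ k * Real.exp (B * |x|))) (hmeas k x)
      (Filter.Eventually.of_forall (fun v => hbound k x v))
  refine ⟨hint j τ, ?_⟩
  have key := hasDerivAt_integral_of_dominated_loc_of_deriv_le (𝕜 := ℝ) (μ := volume)
    (F := fun (x : ℝ) (v : ℝ) => a v ^ j * (Complex.exp (a v * x) * h v))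
    (F' := fun (x : ℝ) (v : ℝ) => a v ^ (j + 1) * (Complex.exp (a v * x) * h v))
    (x₀ := τ) (s := Metric.ball τ 1)
    (bound := fun v => B ^ (j + 1) * Real.exp (B * (|τ| + 1)) * ‖h v‖)
    (Metric.ball_mem_nhds τ one_pos)
    (Filter.Eventually.of_forall (fun x => hmeas j x)) (hint j τ) (hmeas (j + 1) τ)
    (Filter.Eventually.of_forall (fun v x hx => by
      refine le_trans (hbound (j + 1) x v) ?_
      have hx' : |x| ≤ |τ| + 1 := by
        rw [Metric.mem_ball, Real.dist_eq] at hx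
        have := abs_add_le (x - τ) τ
        simp at this
        linarith
      have h1 : Real.exp (B * |x|) ≤ Real.exp (B * (|τ| + 1)) :=
        Real.exp_le_exp.mpr (mul_le_mul_of_nonneg_left hx' hB0)
      exact mul_le_mul_of_nonneg_right (mul_le_mul_of_nonneg_left h1 (by positivity))
        (norm_nonneg _)))
    (hh.norm.const_mul _)
    (Filter.Eventually.of_forall (fun v x _ => by
      have h1 : HasDerivAt (fun y : ℝ => a v * (y : ℂ)) (a v) x := by
        have := (Complex.ofRealCLM.hasDerivAt (x := x)).const_mul (a v)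
        simpa using this
      have h2 := h1.cexp
      have h3 := (h2.mul_const (h v)).const_mul (a v ^ j)
      refine h3.congr_deriv ?_
      ring))
  exact key.2

/-! ### The integrand on a line near the axis -/

lemma ker_facts {η R : ℝ} {σ P t : ℂ → ℂ} (K : SKer η R σ P t) :
    ∃ A M : ℝ, 1 ≤ A ∧ 0 ≤ M ∧ (∀ s : ℂ, |s.re| ≤ η / 4 → ‖σ s‖ ≤ M) ∧
      ∀ s : ℂ, |s.re| ≤ η / 4 → ∀ τ : ℝ, |τ| ≤ 1 → (σ s * τ + P s).re ≤ A * |s.re| := by
  obtain ⟨M, hM⟩ := K.bd (η / 2) (by linarith [K.eta_pos]) (by linarith [K.eta_pos])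
  have hη := K.eta_pos
  have hM0 : 0 ≤ M := le_trans (norm_nonneg _) (hM 0 (by simp; positivity)).1
  refine ⟨Real.exp (2 * (2 * M)) * (4 / η) + 1, M, ?_, hM0, ?_, ?_⟩
  · have : 0 ≤ Real.exp (2 * (2 * M)) * (4 / η) := by positivity
    linarith
  · intro s hs
    exact (hM s (by linarith)).1
  · intro s hs τ hτ
    have h1 := re_le_strip η (2 * M) (fun s => σ s * τ + P s) hη
      (fun s hs => ((K.ds s hs).mul_const _).add (K.dP s hs).differentiableAt)
      (by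
        intro z hz
        obtain ⟨h2, h3⟩ := hM z hz
        have h4 : |(σ z * (τ : ℂ)).re| ≤ M := by
          calc |(σ z * (τ : ℂ)).re| ≤ ‖σ z * (τ : ℂ)‖ := Complex.abs_re_le_norm _
            _ = ‖σ z‖ * |τ| := by rw [norm_mul, Complex.norm_real, Real.norm_eq_abs]
            _ ≤ M * 1 := mul_le_mul h2 hτ (abs_nonneg _) hM0
            _ = M := mul_one _
        show |(σ z * (τ : ℂ) + P z).re| ≤ 2 * M
        rw [Complex.add_re]
        have := abs_add_le (σ z * (τ : ℂ)).re (P z).re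
        linarith)
      (by
        intro y
        have h5 := K.s_im y
        have h6 := K.P_im y
        simp only [Complex.add_re, Complex.mul_re, h5, h6, Complex.ofReal_im, mul_zero,
          Complex.ofReal_re, zero_mul]
        ring)
      s hs
    have h7 := le_abs_self (σ s * (τ : ℂ) + P s).re
    have h8 : 0 ≤ |s.re| := abs_nonneg _
    have h9 : (σ s * (τ : ℂ) + P s).re ≤ Real.exp (2 * (2 * M)) * (4 / η) * |s.re| :=
      le_trans h7 h1
    nlinarith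

lemma line_re (c v : ℝ) : (((c : ℂ) + (v : ℂ) * Complex.I)).re = c := by simp

lemma ker_bd {A η ε : ℝ} {σ P : ℂ → ℂ} (hε : 0 < ε)
    (hA : ∀ s : ℂ, |s.re| ≤ η / 4 → ∀ τ : ℝ, |τ| ≤ 1 → (σ s * τ + P s).re ≤ A * |s.re|)
    {c κ τ φ v : ℝ} {n : ℕ} (hc : 0 < c) (hc1 : c ≤ 1) (hcη : c ≤ η / 4) (hκ : |κ| ≤ 1)
    (hτ : |τ| ≤ 1) :
    ‖Complex.exp (n * (σ (c + v * Complex.I) * τ + P (c + v * Complex.I))) *
      Kf n ε κ (c + (v - φ) * Complex.I)‖ ≤
      Real.exp (n * ((A + ε + 1) * c)) * Real.exp (-(n * ε) * (v - φ) ^ 2) /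
        ‖(c : ℂ) + ((v - φ : ℝ) : ℂ) * Complex.I‖ := by
  have h1 : ((v : ℂ) - (φ : ℂ)) = ((v - φ : ℝ) : ℂ) := by push_cast; rfl
  rw [h1, norm_mul, norm_Kf_eq, Complex.norm_exp, ← mul_div_assoc, ← mul_assoc, ← Real.exp_add]
  have hpos : 0 < ‖(c : ℂ) + ((v - φ : ℝ) : ℂ) * Complex.I‖ :=
    lt_of_lt_of_le hc (norm_ge_re _ _ hc)
  apply div_le_div_of_nonneg_right _ hpos.le
  apply mul_le_mul_of_nonneg_right _ (Real.exp_pos _).le
  apply Real.exp_le_exp.mpr
  have h2 := hA (c + v * Complex.I) (by rw [line_re, abs_of_pos hc]; exact hcη) τ hτ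
  rw [line_re, abs_of_pos hc] at h2
  have h3 : ((n : ℂ) * (σ (c + v * Complex.I) * τ + P (c + v * Complex.I))).re =
      n * (σ (c + v * Complex.I) * τ + P (c + v * Complex.I)).re := by
    have : ((n : ℂ)) = ((n : ℝ) : ℂ) := by simp
    rw [this, Complex.re_ofReal_mul]
  rw [h3]
  have hn : (0 : ℝ) ≤ n := Nat.cast_nonneg n
  have h4 : -κ * c ≤ c := by
    have : -κ ≤ 1 := by linarith [neg_abs_le κ]
    nlinarith
  have h5 : ε * c ^ 2 ≤ ε * c := by
    have : c ^ 2 ≤ c := by nlinarith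
    nlinarith
  have h6 : (σ (c + v * Complex.I) * τ + P (c + v * Complex.I)).re + (ε * c ^ 2 - κ * c) ≤
      (A + ε + 1) * c := by nlinarith
  nlinarith

lemma gauss_int (b φ : ℝ) (hb : 0 < b) :
    Integrable (fun v : ℝ => Real.exp (-b * (v - φ) ^ 2)) ∧
    ∫ v : ℝ, Real.exp (-b * (v - φ) ^ 2) = √(Real.pi / b) := by
  constructor
  · exact (integrable_exp_neg_mul_sq hb).comp_sub_right φ
  · rw [integral_sub_right_eq_self (fun v : ℝ => Real.exp (-b * v ^ 2)) φ]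
    exact integral_gaussian b

/-- eventually `K * (1 + n * M) ^ 2 ≤ exp (ε₂ / 2 * n)` -/
lemma ev_poly (K M ε₂ : ℝ) (hε : 0 < ε₂) :
    ∀ᶠ n : ℕ in atTop, K * (1 + n * M) ^ 2 ≤ Real.exp (ε₂ / 2 * n) := by
  have h1 : Tendsto (fun x : ℝ => x ^ 2 * Real.exp (-x)) atTop (𝓝 0) :=
    Real.tendsto_pow_mul_exp_neg_atTop_nhds_zero 2
  have h0 : Tendsto (fun x : ℝ => Real.exp (-x)) atTop (𝓝 0) :=
    Real.tendsto_exp_neg_atTop_nhds_zero
  have hb : 0 < ε₂ / 2 := by positivity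
  have h2 : Tendsto (fun n : ℕ => ε₂ / 2 * (n : ℝ)) atTop atTop :=
    Tendsto.const_mul_atTop hb tendsto_natCast_atTop_atTop
  have h3 := (h1.comp h2).const_mul (2 * K * M ^ 2 * (2 / ε₂) ^ 2)
  have h4 := (h0.comp h2).const_mul (2 * K)
  have h5 := h3.add h4
  simp only [mul_zero, add_zero] at h5
  have h6 := h5.eventually (gt_mem_nhds (show (0 : ℝ) < 1 by norm_num))
  have h7 : ∀ n : ℕ, K * (1 + n * M) ^ 2 ≤ K * (1 + n * M) ^ 2 := fun n => le_rfl
  by_cases hK : 0 ≤ K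
  · filter_upwards [h6] with n hn
    simp only [Function.comp] at hn
    have hE := Real.exp_pos (ε₂ / 2 * n)
    have h8 : (2 * K * M ^ 2 * (2 / ε₂) ^ 2) * ((ε₂ / 2 * n) ^ 2 * Real.exp (-(ε₂ / 2 * n))) +
        2 * K * Real.exp (-(ε₂ / 2 * n)) =
        (2 * K * (M ^ 2 * n ^ 2) + 2 * K) * Real.exp (-(ε₂ / 2 * n)) := by
      field_simp
    rw [h8, Real.exp_neg] at hn
    have h9 : 2 * K * (M ^ 2 * n ^ 2) + 2 * K < Real.exp (ε₂ / 2 * n) := by
      rw [← div_eq_mul_inv, div_lt_one hE] at hn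
      exact hn
    have h10 : K * (1 + n * M) ^ 2 ≤ 2 * K * (M ^ 2 * n ^ 2) + 2 * K := by
      nlinarith [mul_nonneg hK (sq_nonneg (1 - n * M))]
    linarith
  · filter_upwards with n
    have : K * (1 + n * M) ^ 2 ≤ 0 := by
      push Not at hK
      exact mul_nonpos_of_nonpos_of_nonneg hK.le (sq_nonneg _)
    linarith [Real.exp_pos (ε₂ / 2 * n)]

/-- the first part -/
lemma seg_part1 (hsh : S_bsh) (η R : ℝ) (σ P t : ℂ → ℂ) (K : SKer η R σ P t)
    (T ε ϑ : ℝ) (hT : 0 < T) (hε : 0 < ε) (hϑ : 0 < ϑ) :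
    ∃ c₀ : ℝ, 0 < c₀ ∧ c₀ < η ∧ ∀ c : ℝ, 0 < c → c ≤ c₀ → ∃ ε₁ : ℝ, 0 < ε₁ ∧ ∃ n₀ : ℕ,
    ∀ n : ℕ, n₀ ≤ n → ∀ κ φ τ : ℝ, |κ| ≤ 1 → |φ| ≤ T - ϑ → |τ| ≤ 1 →
    ‖tf σ P n ε κ c φ τ -
      vS (fun s => Complex.exp (n * (σ s * τ + P s))) T n ε κ c φ‖ ≤ Real.exp (-ε₁ * n) := by
  obtain ⟨A, M, hA1, hM0, hM, hA⟩ := ker_facts K
  have hη := K.eta_pos
  have hA0 : 0 < A + ε + 1 := by linarith
  refine ⟨min 1 (min (η / 4) (ε * ϑ ^ 2 / 4 / (A + ε + 1))), by positivity, ?_, ?_⟩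
  · have := min_le_right (1 : ℝ) (min (η / 4) (ε * ϑ ^ 2 / 4 / (A + ε + 1)))
    have := min_le_left (η / 4) (ε * ϑ ^ 2 / 4 / (A + ε + 1))
    linarith
  intro c hc hcc
  have hc1 : c ≤ 1 := le_trans hcc (min_le_left _ _)
  have hcη : c ≤ η / 4 := le_trans hcc (le_trans (min_le_right _ _) (min_le_left _ _))
  have hcA : (A + ε + 1) * c ≤ ε * ϑ ^ 2 / 4 := by
    have := le_trans hcc (le_trans (min_le_right _ _) (min_le_right _ _))
    rw [le_div_iff₀ hA0] at this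
    linarith
  refine ⟨ε * ϑ ^ 2 / 8, by positivity, ?_⟩
  -- choice of n₀
  have hev : ∀ᶠ n : ℕ in atTop, 1 ≤ n ∧ 1 / (2 * Real.pi) / ϑ * √(Real.pi / (1 / 2 * ε)) * (1 + n * 0) ^ 2 ≤
      Real.exp ((ε * ϑ ^ 2 / 4) / 2 * n) :=
    (Filter.eventually_ge_atTop 1).and (ev_poly _ 0 (ε * ϑ ^ 2 / 4) (by positivity))
  obtain ⟨n₀, hn₀⟩ := Filter.eventually_atTop.mp hev
  refine ⟨n₀, ?_⟩
  intro n hn κ φ τ hκ hφ hτ
  obtain ⟨hn1, hnK⟩ := hn₀ n hn
  have hn1' : (1 : ℝ) ≤ n := by exact_mod_cast hn1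
  have hnpos : 0 < n := hn1
  obtain ⟨hint, -⟩ := hsh η R σ P t K n ε κ φ τ hnpos hε
  have hI := hint c hc (by linarith)
  set F : ℝ → ℂ := fun v : ℝ => Complex.exp (n * (σ (c + v * Complex.I) * τ + P (c + v * Complex.I))) *
      Kf n ε κ (c + (v - φ) * Complex.I) with hF
  have hsplit : tf σ P n ε κ c φ τ -
      vS (fun s => Complex.exp (n * (σ s * τ + P s))) T n ε κ c φ =
      (∫ v in (Set.Ioc (-T) T)ᶜ, F v) / (2 * Real.pi) := by
    have h1 : (∫ v : ℝ, F v) = (∫ v in Set.Ioc (-T) T, F v) + ∫ v in (Set.Ioc (-T) T)ᶜ, F v :=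
      (integral_add_compl measurableSet_Ioc hI).symm
    have h2 : (∫ v in (-T)..T, F v) = ∫ v in Set.Ioc (-T) T, F v :=
      intervalIntegral.integral_of_le (by linarith)
    show (∫ v : ℝ, F v) / (2 * Real.pi) - (∫ v in (-T)..T, F v) / (2 * Real.pi) = _
    rw [h1, h2]
    ring
  rw [hsplit, norm_div]
  have h2pi : ‖(2 * Real.pi : ℂ)‖ = 2 * Real.pi := by
    have : (2 * Real.pi : ℂ) = ((2 * Real.pi : ℝ) : ℂ) := by push_cast; rfl
    rw [this, Complex.norm_real, Real.norm_eq_abs, abs_of_pos (by positivity)]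
  rw [h2pi]
  have hb : 0 < (n : ℝ) * ε / 2 := by positivity
  obtain ⟨hgi, hgv⟩ := gauss_int ((n : ℝ) * ε / 2) φ hb
  set D : ℝ := Real.exp (n * (ε * ϑ ^ 2 / 4)) * Real.exp (-(n * (ε * ϑ ^ 2 / 2))) / ϑ with hD
  have hD0 : 0 ≤ D := by positivity
  have hbd : ∀ v ∈ (Set.Ioc (-T) T)ᶜ, ‖F v‖ ≤ D * Real.exp (-((n : ℝ) * ε / 2) * (v - φ) ^ 2) := by
    intro v hv
    have hv' : ϑ ≤ |v - φ| := by
      simp only [Set.mem_compl_iff, Set.mem_Ioc, not_and_or, not_lt, not_le] at hv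
      have h3 := abs_le.mp hφ
      rcases hv with h | h
      · rw [abs_of_nonpos (by linarith)]
        linarith [h3.1]
      · rw [abs_of_nonneg (by linarith)]
        linarith [h3.2]
    refine le_trans (ker_bd hε hA hc hc1 hcη hκ hτ) ?_
    have h4 : ϑ ≤ ‖(c : ℂ) + ((v - φ : ℝ) : ℂ) * Complex.I‖ := le_trans hv' (norm_ge_im _ _)
    have h5 : ϑ ^ 2 ≤ (v - φ) ^ 2 := by
      rw [← sq_abs (v - φ)]
      exact pow_le_pow_left₀ hϑ.le hv' 2
    have h6 : Real.exp (n * ((A + ε + 1) * c)) * Real.exp (-(n * ε) * (v - φ) ^ 2) ≤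
        Real.exp (n * (ε * ϑ ^ 2 / 4)) * Real.exp (-(n * (ε * ϑ ^ 2 / 2))) *
          Real.exp (-((n : ℝ) * ε / 2) * (v - φ) ^ 2) := by
      rw [← Real.exp_add, ← Real.exp_add, ← Real.exp_add]
      apply Real.exp_le_exp.mpr
      have h7 : (n : ℝ) * ((A + ε + 1) * c) ≤ n * (ε * ϑ ^ 2 / 4) :=
        mul_le_mul_of_nonneg_left hcA (by linarith)
      have h8 : (n : ℝ) * ε / 2 * ϑ ^ 2 ≤ (n : ℝ) * ε / 2 * (v - φ) ^ 2 :=
        mul_le_mul_of_nonneg_left h5 hb.le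
      nlinarith
    calc Real.exp (n * ((A + ε + 1) * c)) * Real.exp (-(n * ε) * (v - φ) ^ 2) /
          ‖(c : ℂ) + ((v - φ : ℝ) : ℂ) * Complex.I‖
        ≤ (Real.exp (n * (ε * ϑ ^ 2 / 4)) * Real.exp (-(n * (ε * ϑ ^ 2 / 2))) *
          Real.exp (-((n : ℝ) * ε / 2) * (v - φ) ^ 2)) / ϑ :=
          div_le_div₀ (by positivity) h6 hϑ h4
      _ = _ := by rw [hD]; ring
  have hnorm : ‖∫ v in (Set.Ioc (-T) T)ᶜ, F v‖ ≤ D * √(Real.pi / ((n : ℝ) * ε / 2)) := by
    calc ‖∫ v in (Set.Ioc (-T) T)ᶜ, F v‖ ≤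
          ∫ v in (Set.Ioc (-T) T)ᶜ, D * Real.exp (-((n : ℝ) * ε / 2) * (v - φ) ^ 2) := by
          apply norm_integral_le_of_norm_le (hgi.const_mul D).integrableOn
          exact (ae_restrict_iff' measurableSet_Ioc.compl).mpr (Filter.Eventually.of_forall hbd)
      _ ≤ ∫ v, D * Real.exp (-((n : ℝ) * ε / 2) * (v - φ) ^ 2) :=
          setIntegral_le_integral (hgi.const_mul D)
            (Filter.Eventually.of_forall (fun v => by positivity))
      _ = _ := by rw [integral_const_mul, hgv]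
  have hsq : √(Real.pi / ((n : ℝ) * ε / 2)) ≤ √(Real.pi / (1 / 2 * ε)) := by
    apply Real.sqrt_le_sqrt
    apply div_le_div_of_nonneg_left Real.pi_pos.le (by positivity)
    nlinarith
  have hDv : D = Real.exp (-(n * (ε * ϑ ^ 2 / 4))) / ϑ := by
    rw [hD, ← Real.exp_add]
    congr 2
    ring
  calc ‖∫ v in (Set.Ioc (-T) T)ᶜ, F v‖ / (2 * Real.pi)
      ≤ (D * √(Real.pi / (1 / 2 * ε))) / (2 * Real.pi) :=
        div_le_div_of_nonneg_right (le_trans hnorm (mul_le_mul_of_nonneg_left hsq hD0)) (by positivity)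
    _ = Real.exp (-(n * (ε * ϑ ^ 2 / 4))) *
        (1 / (2 * Real.pi) / ϑ * √(Real.pi / (1 / 2 * ε)) * (1 + n * 0) ^ 2) := by
        rw [hDv]
        ring
    _ ≤ Real.exp (-(n * (ε * ϑ ^ 2 / 4))) * Real.exp ((ε * ϑ ^ 2 / 4) / 2 * n) :=
        mul_le_mul_of_nonneg_left hnK (Real.exp_pos _).le
    _ = Real.exp (-(ε * ϑ ^ 2 / 8) * n) := by
        rw [← Real.exp_add]
        congr 1
        ring

/-- the second part -/
lemma seg_part2 (hsh : S_bsh) (η R : ℝ) (σ P t : ℂ → ℂ) (K : SKer η R σ P t)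
    (ε : ℝ) (hε : 0 < ε) :
    ∀ ε₂ : ℝ, 0 < ε₂ → ∃ n₀ : ℕ, ∀ n : ℕ, n₀ ≤ n → ∀ κ φ c : ℝ, |κ| ≤ 1 → 0 < c → c < η →
    ∃ u₁ u₂ : ℝ → ℂ, (∀ τ, HasDerivAt (tf σ P n ε κ c φ) (u₁ τ) τ) ∧ (∀ τ, HasDerivAt u₁ (u₂ τ) τ) ∧
      Continuous u₂ ∧ ∀ τ : ℝ, |τ| ≤ 1 → ‖tf σ P n ε κ c φ τ‖ ≤ Real.exp (ε₂ * n) ∧
        ‖u₁ τ‖ ≤ Real.exp (ε₂ * n) ∧ ‖u₂ τ‖ ≤ Real.exp (ε₂ * n) := by
  obtain ⟨A, M, hA1, hM0, hM, hA⟩ := ker_facts K
  have hη := K.eta_pos
  have hA0 : 0 < A + ε + 1 := by linarith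
  intro ε₂ hε₂
  set c' : ℝ := min 1 (min (η / 4) (ε₂ / 2 / (A + ε + 1))) with hc'
  have hc0 : 0 < c' := by positivity
  have hc1 : c' ≤ 1 := min_le_left _ _
  have hcη : c' ≤ η / 4 := le_trans (min_le_right _ _) (min_le_left _ _)
  have hcA : (A + ε + 1) * c' ≤ ε₂ / 2 := by
    have : c' ≤ ε₂ / 2 / (A + ε + 1) := le_trans (min_le_right _ _) (min_le_right _ _)
    rw [le_div_iff₀ hA0] at this
    linarith
  have hev : ∀ᶠ n : ℕ in atTop, 1 ≤ n ∧ 1 / (2 * Real.pi) / c' * √(Real.pi / ε) *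
      (1 + n * M) ^ 2 ≤ Real.exp (ε₂ / 2 * n) :=
    (Filter.eventually_ge_atTop 1).and (ev_poly _ M ε₂ hε₂)
  obtain ⟨n₀, hn₀⟩ := Filter.eventually_atTop.mp hev
  refine ⟨n₀, ?_⟩
  intro n hn κ φ c hκ hc hcη'
  obtain ⟨hn1, hnK⟩ := hn₀ n hn
  have hn1' : (1 : ℝ) ≤ n := by exact_mod_cast hn1
  have hnpos : 0 < n := hn1
  set a : ℝ → ℂ := fun v => n * σ (c' + v * Complex.I) with ha
  set h : ℝ → ℂ := fun v => Complex.exp (n * P (c' + v * Complex.I)) *
    Kf n ε κ (c' + (v - φ) * Complex.I) with hh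
  have hstrip : ∀ v : ℝ, |((c' : ℂ) + (v : ℂ) * Complex.I).re| < η := by
    intro v
    rw [line_re, abs_of_pos hc0]
    linarith
  have hstrip4 : ∀ v : ℝ, |((c' : ℂ) + (v : ℂ) * Complex.I).re| ≤ η / 4 := by
    intro v
    rw [line_re, abs_of_pos hc0]
    exact hcη
  have hacont : Continuous a := by
    rw [continuous_iff_continuousAt]
    intro v
    have h1 : ContinuousAt (fun v : ℝ => (c' : ℂ) + (v : ℂ) * Complex.I) v := by fun_prop
    have h2 : ContinuousAt σ ((c' : ℂ) + (v : ℂ) * Complex.I) := (K.ds _ (hstrip v)).continuousAt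
    exact continuousAt_const.mul (ContinuousAt.comp (f := fun v : ℝ => (c' : ℂ) + (v : ℂ) * Complex.I) h2 h1)
  have haB : ∀ v, ‖a v‖ ≤ n * M := by
    intro v
    rw [ha]
    simp only [norm_mul, Complex.norm_natCast]
    exact mul_le_mul_of_nonneg_left (hM _ (hstrip4 v)) (Nat.cast_nonneg n)
  have hprod : ∀ v τ : ℝ, Complex.exp (a v * τ) * h v =
      Complex.exp (n * (σ (c' + v * Complex.I) * τ + P (c' + v * Complex.I))) *
        Kf n ε κ (c' + (v - φ) * Complex.I) := by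
    intro v τ
    rw [hh, ha]
    simp only
    rw [← mul_assoc, ← Complex.exp_add]
    congr 2
    ring
  have hhint : Integrable h := by
    obtain ⟨hint, -⟩ := hsh η R σ P t K n ε κ φ 0 hnpos hε
    have h3 := hint c' hc0 (by linarith)
    refine h3.congr (Filter.Eventually.of_forall (fun v => ?_))
    have := hprod v 0
    simp only [Complex.ofReal_zero, mul_zero, Complex.exp_zero, one_mul] at this
    simp only [Complex.ofReal_zero, mul_zero]
    rw [this]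
  set J : ℕ → ℝ → ℂ := fun j τ => ∫ v, a v ^ j * (Complex.exp (a v * τ) * h v) with hJ
  have hJd : ∀ j τ, HasDerivAt (J j) (J (j + 1) τ) τ := fun j τ =>
    (deriv_param a h (n * M) hacont haB hhint j τ).2
  have htf : tf σ P n ε κ c φ = fun τ => J 0 τ / (2 * Real.pi) := by
    funext τ
    obtain ⟨-, heq⟩ := hsh η R σ P t K n ε κ φ τ hnpos hε
    rw [heq c c' hc hcη' hc0 (by linarith)]
    unfold tf
    rw [hJ]
    simp only [pow_zero, one_mul]
    congr 1
    apply integral_congr_ae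
    exact Filter.Eventually.of_forall (fun v => (hprod v τ).symm)
  obtain ⟨hgi, hgv⟩ := gauss_int ((n : ℝ) * ε) φ (by positivity)
  have h2pi : ‖(2 * Real.pi : ℂ)‖ = 2 * Real.pi := by
    have : (2 * Real.pi : ℂ) = ((2 * Real.pi : ℝ) : ℂ) := by push_cast; rfl
    rw [this, Complex.norm_real, Real.norm_eq_abs, abs_of_pos (by positivity)]
  have hJb : ∀ j : ℕ, j ≤ 2 → ∀ τ : ℝ, |τ| ≤ 1 → ‖J j τ / (2 * Real.pi)‖ ≤ Real.exp (ε₂ * n) := by
    intro j hj τ hτ
    have hb1 : ∀ v : ℝ, ‖a v ^ j * (Complex.exp (a v * τ) * h v)‖ ≤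
        ((1 + n * M) ^ 2 * Real.exp (n * (ε₂ / 2)) / c') * Real.exp (-(n * ε) * (v - φ) ^ 2) := by
      intro v
      rw [norm_mul, norm_pow, hprod]
      have h4 := ker_bd (n := n) (φ := φ) (v := v) hε hA hc0 hc1 hcη hκ hτ
      have h5 : ‖a v‖ ^ j ≤ (1 + n * M) ^ 2 := by
        have hnM : 0 ≤ (n : ℝ) * M := by positivity
        calc ‖a v‖ ^ j ≤ (1 + n * M) ^ j :=
              pow_le_pow_left₀ (norm_nonneg _) (le_trans (haB v) (by linarith)) j
          _ ≤ (1 + n * M) ^ 2 := pow_le_pow_right₀ (by linarith) hj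
      have h6 : c' ≤ ‖(c' : ℂ) + ((v - φ : ℝ) : ℂ) * Complex.I‖ := norm_ge_re _ _ hc0
      have h7 : Real.exp (n * ((A + ε + 1) * c')) * Real.exp (-(n * ε) * (v - φ) ^ 2) /
          ‖(c' : ℂ) + ((v - φ : ℝ) : ℂ) * Complex.I‖ ≤
          Real.exp (n * (ε₂ / 2)) * Real.exp (-(n * ε) * (v - φ) ^ 2) / c' := by
        apply div_le_div₀ (by positivity) _ hc0 h6
        apply mul_le_mul_of_nonneg_right _ (Real.exp_pos _).le
        exact Real.exp_le_exp.mpr (mul_le_mul_of_nonneg_left hcA (by linarith))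
      calc ‖a v‖ ^ j * _ ≤ (1 + n * M) ^ 2 *
            (Real.exp (n * (ε₂ / 2)) * Real.exp (-(n * ε) * (v - φ) ^ 2) / c') :=
            mul_le_mul h5 (le_trans h4 h7) (norm_nonneg _) (by positivity)
        _ = _ := by ring
    have hb2 : ‖J j τ‖ ≤ ((1 + n * M) ^ 2 * Real.exp (n * (ε₂ / 2)) / c') *
        √(Real.pi / ((n : ℝ) * ε)) := by
      have h8 := norm_integral_le_of_norm_le
        (hgi.const_mul ((1 + n * M) ^ 2 * Real.exp (n * (ε₂ / 2)) / c'))
        (Filter.Eventually.of_forall hb1)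
      rw [integral_const_mul, hgv] at h8
      exact h8
    have hsq : √(Real.pi / ((n : ℝ) * ε)) ≤ √(Real.pi / ε) := by
      apply Real.sqrt_le_sqrt
      apply div_le_div_of_nonneg_left Real.pi_pos.le (by positivity)
      nlinarith
    rw [norm_div, h2pi]
    calc ‖J j τ‖ / (2 * Real.pi) ≤ (((1 + n * M) ^ 2 * Real.exp (n * (ε₂ / 2)) / c') *
          √(Real.pi / ε)) / (2 * Real.pi) :=
          div_le_div_of_nonneg_right (le_trans hb2 (mul_le_mul_of_nonneg_left hsq (by positivity)))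
            (by positivity)
      _ = Real.exp (n * (ε₂ / 2)) * (1 / (2 * Real.pi) / c' * √(Real.pi / ε) *
          (1 + n * M) ^ 2) := by ring
      _ ≤ Real.exp (n * (ε₂ / 2)) * Real.exp (ε₂ / 2 * n) :=
          mul_le_mul_of_nonneg_left hnK (Real.exp_pos _).le
      _ = Real.exp (ε₂ * n) := by
          rw [← Real.exp_add]
          congr 1
          ring
  refine ⟨fun τ => J 1 τ / (2 * Real.pi), fun τ => J 2 τ / (2 * Real.pi), ?_, ?_, ?_, ?_⟩
  · intro τ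
    rw [htf]
    exact (hJd 0 τ).div_const _
  · intro τ
    exact (hJd 1 τ).div_const _
  · have : Continuous (J 2) := by
      rw [continuous_iff_continuousAt]
      exact fun τ => (hJd 2 τ).continuousAt
    exact this.div_const _
  · intro τ hτ
    rw [htf]
    exact ⟨hJb 0 (by norm_num) τ hτ, hJb 1 (by norm_num) τ hτ, hJb 2 le_rfl τ hτ⟩

/-- B-SEG -/
theorem bseg : S_bseg := by
  intro hsh η R σ P t K T ε ϑ hT hε hϑ
  exact ⟨seg_part1 hsh η R σ P t K T ε ϑ hT hε hϑ, seg_part2 hsh η R σ P t K ε hε⟩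

end Pool.Agent.Q190.SL
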